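import Pool.Agent.Helper34.Sys.Iface

/-!
# Coverings: a tower over a simply connected graph is an isomorphism
-/

set_option autoImplicit false

namespace Pool.Agent.Helper32.Sys

open Pool.Agent.Helper34.Sys

variable {V : Type} {G : SimpleGraph V} {v : V}

/-- A step of a lift. -/
def Stp (T : Tower G v) (e : T.E) (y : V) (f : T.E) : Prop := (e = f ∨ T.A e f) ∧ T.p f = y

/-- `e'` is the end of the lift of the list `l` of vertices which starts at `e`. -/
inductive Lft (T : Tower G v) : T.E → List V → T.E → Prop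
  | nil (e : T.E) : Lft T e [] e
  | cons (e : T.E) (y : V) (f : T.E) (l : List V) (e' : T.E) (h : Stp T e y f)
      (h' : Lft T f l e') : Lft T e (y :: l) e'

lemma Stp.unique {T : Tower G v} {e : T.E} {y : V} {f g : T.E} (h1 : Stp T e y f)
    (h2 : Stp T e y g) : f = g := by
  obtain ⟨h1 | h1, h1'⟩ := h1 <;> obtain ⟨h2 | h2, h2'⟩ := h2
  · exact h1.symm.trans h2
  · exfalso
    subst h1
    exact (T.adj _ _ h2).ne (h1'.trans h2'.symm)
  · exfalso
    subst h2
    exact (T.adj _ _ h1).ne (h2'.trans h1'.symm)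
  · exact T.uniq e f g h1 h2 (h1'.trans h2'.symm)

lemma Stp.exists (T : Tower G v) (e : T.E) (y : V) (h : T.p e = y ∨ G.Adj (T.p e) y) :
    ∃ f, Stp T e y f := by
  rcases h with h | h
  · exact ⟨e, Or.inl rfl, h⟩
  · obtain ⟨f, hf, hy⟩ := T.lift e y h
    exact ⟨f, Or.inr hf, hy⟩

lemma Stp.adjeq {T : Tower G v} {e : T.E} {y : V} {f : T.E} (h : Stp T e y f) :
    T.p e = y ∨ G.Adj (T.p e) y := by
  obtain ⟨h | h, h'⟩ := h
  · left; rw [h]; exact h'
  · right; rw [← h']; exact T.adj _ _ h

lemma Stp.comp {T : Tower G v} {e : T.E} {b c : V} {f g : T.E} (h1 : Stp T e b f)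
    (h2 : Stp T f c g) (h3 : T.p e = c ∨ G.Adj (T.p e) c) : Stp T e c g := by
  obtain ⟨h1 | h1, h1'⟩ := h1
  · subst h1; exact h2
  · obtain ⟨h2 | h2, h2'⟩ := h2
    · subst h2; exact ⟨Or.inr h1, h2'⟩
    · rcases h3 with h3 | h3
      · have : e = g := T.uniq f e g (T.symm _ _ h1) h2 (h3.trans h2'.symm)
        exact ⟨Or.inl this, h2'⟩
      · exact ⟨Or.inr (T.tri f e g (T.symm _ _ h1) h2 (by rw [h2']; exact h3)), h2'⟩

lemma Lft.unique {T : Tower G v} {e : T.E} {l : List V} {f g : T.E} (h1 : Lft T e l f)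
    (h2 : Lft T e l g) : f = g := by
  induction h1 with
  | nil e => cases h2; rfl
  | cons e y f l e' h h' ih =>
    cases h2 with
    | cons _ _ f2 _ _ h3 h3' =>
      have := h.unique h3
      subst this
      exact ih h3'

lemma Lft.append {T : Tower G v} {e f g : T.E} {l m : List V} (h1 : Lft T e l f)
    (h2 : Lft T f m g) : Lft T e (l ++ m) g := by
  induction h1 with
  | nil e => exact h2
  | cons e y f l e' h h' ih => exact Lft.cons e y f _ _ h (ih h2)

lemma Lft.split {T : Tower G v} (l m : List V) : ∀ {e g : T.E}, Lft T e (l ++ m) g →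
    ∃ f, Lft T e l f ∧ Lft T f m g := by
  induction l with
  | nil => intro e g h; exact ⟨e, Lft.nil e, h⟩
  | cons y l ih =>
    intro e g h
    cases h with
    | cons _ _ f _ _ h h' =>
      obtain ⟨f', h1, h2⟩ := ih h'
      exact ⟨f', Lft.cons e y f l f' h h1, h2⟩

lemma Lft.single {T : Tower G v} {e f : T.E} {y : V} (h : Stp T e y f) : Lft T e [y] f :=
  Lft.cons e y f [] f h (Lft.nil f)

lemma Lft.exists (T : Tower G v) (l : List V) : ∀ e : T.E,
    (T.p e :: l).IsChain (fun a b => a = b ∨ G.Adj a b) → ∃ f, Lft T e l f := by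
  induction l with
  | nil => intro e _; exact ⟨e, Lft.nil e⟩
  | cons y l ih =>
    intro e h
    rw [List.isChain_cons_cons] at h
    obtain ⟨f, hf⟩ := Stp.exists T e y h.1
    obtain ⟨g, hg⟩ := ih f (by rw [hf.2]; exact h.2)
    exact ⟨g, Lft.cons e y f l g hf hg⟩

lemma Lft.chain {T : Tower G v} {e : T.E} {l : List V} {f : T.E} (h : Lft T e l f) :
    (T.p e :: l).IsChain (fun a b => a = b ∨ G.Adj a b) := by
  induction h with
  | nil e => exact List.isChain_singleton _
  | cons e y f l e' h h' ih =>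
    rw [List.isChain_cons_cons]
    refine ⟨h.adjeq, ?_⟩
    rw [← h.2]
    exact ih

lemma Lft.rev {T : Tower G v} {e : T.E} {l : List V} {f : T.E} (h : Lft T e l f) :
    Lft T f (T.p e :: l).reverse e := by
  induction h with
  | nil e => exact Lft.single ⟨Or.inl rfl, rfl⟩
  | cons e y f l e' h h' ih =>
    rw [h.2] at ih
    rw [List.reverse_cons]
    refine ih.append (Lft.single ⟨?_, rfl⟩)
    obtain ⟨h | h, _⟩ := h
    · exact Or.inl h.symm
    · exact Or.inr (T.symm _ _ h)

lemma Lft.move {T : Tower G v} {l m : List V} (h : Move G l m) (e f : T.E) :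
    Lft T e l f ↔ Lft T e m f := by
  cases h with
  | mk l₁ l₂ a b c hab hbc hac =>
    constructor
    · intro h
      obtain ⟨e1, h1, h2⟩ := Lft.split _ _ h
      refine h1.append ?_
      cases h2 with
      | cons _ _ ea _ _ ha h2 =>
        cases h2 with
        | cons _ _ eb _ _ hb h2 =>
          cases h2 with
          | cons _ _ ec _ _ hc h2 =>
            exact Lft.cons _ _ _ _ _ ha (Lft.cons _ _ _ _ _ (hb.comp hc (by rw [ha.2]; exact hac))
              h2)
    · intro h
      obtain ⟨e1, h1, h2⟩ := Lft.split _ _ h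
      refine h1.append ?_
      cases h2 with
      | cons _ _ ea _ _ ha h2 =>
        cases h2 with
        | cons _ _ ec _ _ hc h2 =>
          obtain ⟨eb, hb⟩ := Stp.exists T ea b (by rw [ha.2]; exact hab)
          obtain ⟨ec', hc'⟩ := Stp.exists T eb c (by rw [hb.2]; exact hbc)
          have h3 := hb.comp hc' (by rw [ha.2]; exact hac)
          have h4 := h3.unique hc
          subst h4
          exact Lft.cons _ _ _ _ _ ha (Lft.cons _ _ _ _ _ hb (Lft.cons _ _ _ _ _ hc' h2))

lemma Lft.eqv {T : Tower G v} {l m : List V} (h : Relation.EqvGen (Move G) l m) (e f : T.E) :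
    Lft T e l f ↔ Lft T e m f := by
  induction h with
  | rel a b h => exact Lft.move h e f
  | refl a => exact Iff.rfl
  | symm a b _ ih => exact ih.symm
  | trans a b c _ _ ih1 ih2 => exact ih1.trans ih2

lemma from_root (T : Tower G v) : ∀ (n : ℕ) (e : T.E), T.lev e = n → ∃ l, Lft T T.root l e := by
  intro n
  induction n with
  | zero =>
    intro e he
    rw [T.eq_root e he]
    exact ⟨[], Lft.nil _⟩
  | succ n ih =>
    intro e he
    obtain ⟨f, hf, hl⟩ := T.pred e (by omega)
    obtain ⟨l, hl'⟩ := ih f (by omega)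
    exact ⟨l ++ [T.p e], hl'.append (Lft.single ⟨Or.inr (T.symm _ _ hf), rfl⟩)⟩

theorem cov_inj (_hG : G.Connected) (hS : SimplyConn G) (T : Tower G v) (e f : T.E)
    (h : T.p e = T.p f) : e = f := by
  obtain ⟨le, he⟩ := from_root T _ e rfl
  obtain ⟨lf, hf⟩ := from_root T _ f rfl
  have hr := hf.rev
  rw [T.p_root] at hr
  have hc := hr.chain
  rw [← h] at hc
  obtain ⟨e', he'⟩ := Lft.exists T _ e hc
  have h1 : Lft T T.root (le ++ (v :: lf).reverse) e' := he.append he'
  have h2 : Lft T T.root (v :: (le ++ lf.reverse) ++ [v]) e' := by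
    have e1 : (v :: (le ++ lf.reverse) ++ [v]) = v :: (le ++ (v :: lf).reverse) := by
      rw [List.reverse_cons, List.cons_append, List.append_assoc]
    rw [e1]
    exact Lft.cons _ _ _ _ _ ⟨Or.inl rfl, T.p_root⟩ h1
  have h3 : EdgePath G (v :: (le ++ lf.reverse) ++ [v]) := by
    have e1 : (v :: (le ++ lf.reverse) ++ [v]) = T.p T.root :: (le ++ (v :: lf).reverse) := by
      rw [List.reverse_cons, List.cons_append, List.append_assoc, T.p_root]
    rw [e1]
    exact h1.chain
  have h4 := (Lft.eqv (hS v _ h3) T.root e').1 h2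
  have h5 : Lft T T.root [v, v] T.root :=
    Lft.cons _ _ _ _ _ ⟨Or.inl rfl, T.p_root⟩ (Lft.single ⟨Or.inl rfl, T.p_root⟩)
  have h6 := h4.unique h5
  subst h6
  have h7 := he'.rev
  have h8 := hr.rev
  rw [h] at h7
  exact h7.unique h8

lemma walk_lift (T : Tower G v) {u x : V} (w : G.Walk u x) : ∀ e : T.E, T.p e = u →
    ∃ f : T.E, T.p f = x ∧ T.lev f ≤ T.lev e + w.length := by
  induction w with
  | nil => intro e he; exact ⟨e, he, by simp⟩
  | cons h w ih =>
    intro e he
    subst he
    obtain ⟨f, hf, hy⟩ := T.lift e _ h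
    obtain ⟨g, hg, hl⟩ := ih f hy
    refine ⟨g, hg, ?_⟩
    have := T.lev_le e f hf
    rw [SimpleGraph.Walk.length_cons]
    omega

theorem cov_surj (hG : G.Connected) (T : Tower G v) (x : V) : ∃ e, T.p e = x := by
  obtain ⟨w⟩ := hG.preconnected v x
  obtain ⟨f, hf, _⟩ := walk_lift T w T.root T.p_root
  exact ⟨f, hf⟩

theorem cov_dist (hG : G.Connected) (hS : SimplyConn G) (T : Tower G v) (e : T.E) :
    G.dist v (T.p e) = T.lev e := by
  apply le_antisymm
  · have : ∀ (n : ℕ) (e : T.E), T.lev e = n → G.dist v (T.p e) ≤ n := by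
      intro n
      induction n with
      | zero =>
        intro e he
        rw [T.eq_root e he, T.p_root]
        simp
      | succ n ih =>
        intro e he
        obtain ⟨f, hf, hl⟩ := T.pred e (by omega)
        have h1 := ih f (by omega)
        have h2 := hG.dist_triangle (u := v) (v := T.p f) (w := T.p e)
        have h3 : G.dist (T.p f) (T.p e) = 1 := SimpleGraph.dist_eq_one_iff_adj.2 (T.adj _ _ hf).symm
        omega
    exact this _ e rfl
  · obtain ⟨w, hw⟩ := hG.exists_walk_length_eq_dist v (T.p e)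
    obtain ⟨f, hf, hl⟩ := walk_lift T w T.root T.p_root
    have := cov_inj hG hS T f e hf
    subst this
    rw [T.lev_root, hw] at hl
    omega

end Pool.Agent.Helper32.Sys
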