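import Mathlib

/-!
# Systolic complexes: definitions

Literal definitions for `MP_e4602c_al`.
-/

set_option autoImplicit false

namespace Pool.Agent.Helper32.Sys

/-- An abstract simplicial complex with vertex set `V`: the simplices are nonempty finite sets of
vertices, nonempty subsets of simplices are simplices, and every vertex is a simplex. -/
structure Complex (V : Type) where
  /-- the simplices -/
  faces : Set (Finset V)
  nonempty : ∀ s ∈ faces, s.Nonempty
  down : ∀ s ∈ faces, ∀ t : Finset V, t ⊆ s → t.Nonempty → t ∈ faces
  single : ∀ v : V, {v} ∈ faces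

namespace Complex

variable {V : Type} (X : Complex V)

/-- The 1-skeleton: different vertices are adjacent if they lie in a common simplex. -/
def skel : SimpleGraph V where
  Adj v w := v ≠ w ∧ ∃ s ∈ X.faces, v ∈ s ∧ w ∈ s
  symm := ⟨fun _ _ h => ⟨h.1.symm, h.2.imp fun _ h => ⟨h.1, h.2.2, h.2.1⟩⟩⟩
  loopless := ⟨fun _ h => h.1 rfl⟩

/-- The complex is flag: every (nonempty) finite set of pairwise adjacent vertices spans a
simplex. -/
def Flag : Prop := ∀ s : Finset V, s.Nonempty → X.skel.IsClique (s : Set V) → s ∈ X.faces

/-- The link of the vertex `v`: its vertices are the neighbours of `v`, and a nonempty finite set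
of neighbours is a simplex of the link if its elements and `v` lie in a common simplex of `X`. -/
def link (v : V) : Complex {w : V // X.skel.Adj v w} where
  faces := {s | s.Nonempty ∧ ∃ t ∈ X.faces, v ∈ t ∧ ∀ w ∈ s, w.1 ∈ t}
  nonempty := fun _ h => h.1
  down := fun _ h _ hts ht => ⟨ht, h.2.imp fun _ h => ⟨h.1, h.2.1, fun w hw => h.2.2 w (hts hw)⟩⟩
  single := fun w => ⟨Finset.singleton_nonempty _, w.2.2.imp fun _ h => ⟨h.1, h.2.1, fun u hu => by
    rw [Finset.mem_singleton.1 hu]; exact h.2.2⟩⟩

/-- A full cycle of length `n`: `n` different vertices `c 0, c 1, ...` (indices modulo `n`), such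
that consecutive ones are joined by an edge, and such that every simplex all of whose vertices lie
on the cycle is contained in one of these edges (the cycle is an induced subcomplex). -/
def FullCycle (n : ℕ) (c : ZMod n → V) : Prop :=
  3 ≤ n ∧ Function.Injective c ∧ (∀ i, X.skel.Adj (c i) (c (i + 1))) ∧
    ∀ s ∈ X.faces, (∀ v ∈ s, ∃ i, c i = v) → ∃ i, ∀ v ∈ s, v = c i ∨ v = c (i + 1)

/-- Every full cycle has length at least `k`. -/
def Large (k : ℕ) : Prop := ∀ (n : ℕ) (c : ZMod n → V), X.FullCycle n c → k ≤ n

/-- An edge path: consecutive vertices lie in a common simplex (they are equal or adjacent). -/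
def EdgePath (l : List V) : Prop := l.IsChain fun v w => ∃ s ∈ X.faces, v ∈ s ∧ w ∈ s

/-- Elementary homotopies of edge paths: `a b c` is replaced by `a c` if `a, b, c` lie in a common
simplex (they need not be different). -/
inductive Move : List V → List V → Prop
  | mk (p q : List V) (a b c : V) (h : ∃ s ∈ X.faces, a ∈ s ∧ b ∈ s ∧ c ∈ s) :
      Move (p ++ a :: b :: c :: q) (p ++ a :: c :: q)

/-- Simply connected (for a connected complex): the edge path group is trivial, that is, every
closed edge path `v ... v` is equivalent to the constant one `v v`. -/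
def SimplyConnected : Prop := ∀ (v : V) (l : List V), X.EdgePath (v :: l ++ [v]) →
  Relation.EqvGen X.Move (v :: l ++ [v]) [v, v]

/-- Systolic complexes: connected, simply connected, flag, and the link of every vertex is
`6`-large. -/
structure Systolic : Prop where
  connected : X.skel.Connected
  simply : X.SimplyConnected
  flag : X.Flag
  links : ∀ v, (X.link v).Large 6

/-- Uniformly locally finite: there is `N` such that every vertex lies in at most `N` simplices. -/
def UniformlyLocallyFinite : Prop :=
  ∃ N : ℕ, ∀ v : V, ∀ S : Finset (Finset V), (∀ s ∈ S, v ∈ s ∧ s ∈ X.faces) → S.card ≤ N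

end Complex

end Pool.Agent.Helper32.Sys
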