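import Pool.Agent.Helper32.Sys.ToGraph
import Pool.Agent.Helper32.Sys.Cov
import Pool.Agent.Helper34.Sys.Tower
import Pool.Agent.Helper83.Sys.Nic
import Pool.Agent.Helper32.Bridged.Main

/-!
# Uniformly locally finite systolic complexes: the 1-skeleton has no isometric cycle, and the
approximate invariant functions
-/

set_option autoImplicit false

namespace Pool.Agent.Helper32.Sys

open Pool.Agent.Helper34.Sys

variable {V : Type}

/-- A connected, simply connected graph (at the level of its clique complex) whose neighbourhoods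
contain no induced 4- or 5-cycles has no isometric cycle of length at least 4. -/
theorem nic (G : SimpleGraph V) (hG : G.Connected) (hL : Loc6 G) (hS : SimplyConn G) :
    Pool.Agent.Helper32.Bridged.NoIso G := by
  have T : ∀ v, Tower G v := fun v => (exists_tower hL v).some
  obtain ⟨h1, h2⟩ := Pool.Agent.Helper83.Sys.h12_of_tower hG T
    (fun v => cov_inj hG hS (T v)) (fun v => cov_dist hG hS (T v)) (fun v => cov_surj hG (T v))
  exact Pool.Agent.Helper83.Sys.noIso hG hL h1 h2

variable {X : Complex V}

/-- The 1-skeleton of a systolic complex has no isometric cycle of length at least 4. -/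
theorem Complex.noIso (hX : X.Systolic) : Pool.Agent.Helper32.Bridged.NoIso X.skel :=
  nic X.skel hX.connected (Complex.loc6 hX) (Complex.simplyConn hX)

/-- Reiter functions on uniformly locally finite systolic complexes. -/
theorem Complex.reiter (hX : X.Systolic) (hN : X.UniformlyLocallyFinite) (ε : ℝ) (hε : 0 < ε) :
    ∃ (S : ℕ) (ξ : V → lp (fun _ : V => ℝ) 1),
      (∀ x w, 0 ≤ (ξ x : V → ℝ) w) ∧ (∀ x, ‖ξ x‖ = 1) ∧
      (∀ x w, (ξ x : V → ℝ) w ≠ 0 → X.skel.dist x w ≤ S) ∧
      (∀ x y, X.skel.Adj x y → ‖ξ x - ξ y‖ ≤ ε) := by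
  obtain ⟨N, hN⟩ := Complex.cliques hX hN
  exact Pool.Agent.Helper32.Bridged.reiter_bridged X.skel hX.connected (Complex.noIso hX) N
    (Pool.Agent.Helper32.Bridged.nb_of_cliques X.skel N hN) ε hε

end Pool.Agent.Helper32.Sys
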