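import Pool.Agent.Helper32.Sys.Defs
import Pool.Agent.Helper34.Sys.Iface

/-!
# From systolic complexes to graphs
-/

set_option autoImplicit false

namespace Pool.Agent.Helper32.Sys

namespace Complex

open Pool.Agent.Helper34.Sys

variable {V : Type} {X : Complex V}

lemma adj_of_mem {s : Finset V} (hs : s ∈ X.faces) {v w : V} (hv : v ∈ s) (hw : w ∈ s) :
    v = w ∨ X.skel.Adj v w := by
  by_cases h : v = w
  · exact Or.inl h
  · exact Or.inr ⟨h, s, hs, hv, hw⟩

lemma ex_iff {v w : V} : (∃ s ∈ X.faces, v ∈ s ∧ w ∈ s) ↔ v = w ∨ X.skel.Adj v w := by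
  constructor
  · rintro ⟨s, hs, hv, hw⟩
    exact adj_of_mem hs hv hw
  · rintro (h | h)
    · subst h
      exact ⟨{v}, X.single v, Finset.mem_singleton_self v, Finset.mem_singleton_self v⟩
    · exact h.2

lemma full_of_induced (Y : Complex V) (n : ℕ) (hn : 4 ≤ n) (c : ZMod n → V)
    (hinj : Function.Injective c) (hadj : ∀ i, Y.skel.Adj (c i) (c (i + 1)))
    (hno : ∀ i j, Y.skel.Adj (c i) (c j) → j = i + 1 ∨ i = j + 1) : Y.FullCycle n c := by
  have h2 : (2 : ZMod n) ≠ 0 := by
    intro h
    have h' : ((2 : ℕ) : ZMod n) = 0 := by exact_mod_cast h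
    have := Nat.le_of_dvd (by norm_num) ((ZMod.natCast_eq_zero_iff _ _).1 h')
    omega
  have h1 : (1 : ZMod n) ≠ 0 := by
    intro h
    have h' : ((1 : ℕ) : ZMod n) = 0 := by exact_mod_cast h
    have := Nat.le_of_dvd (by norm_num) ((ZMod.natCast_eq_zero_iff _ _).1 h')
    omega
  have h3 : (3 : ZMod n) ≠ 0 := by
    intro h
    have h' : ((3 : ℕ) : ZMod n) = 0 := by exact_mod_cast h
    have := Nat.le_of_dvd (by norm_num) ((ZMod.natCast_eq_zero_iff _ _).1 h')
    omega
  refine ⟨by omega, hinj, hadj, ?_⟩
  intro s hs hc
  obtain ⟨v, hv⟩ := Y.nonempty s hs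
  obtain ⟨i, rfl⟩ := hc v hv
  have key : ∀ w ∈ s, w = c i ∨ w = c (i + 1) ∨ w = c (i - 1) := by
    intro w hw
    obtain ⟨j, rfl⟩ := hc w hw
    rcases adj_of_mem hs hv hw with h | h
    · exact Or.inl h.symm
    · rcases hno _ _ h with h | h
      · exact Or.inr (Or.inl (by rw [h]))
      · exact Or.inr (Or.inr (by rw [h]; congr 1; ring))
  by_cases hm : c (i - 1) ∈ s
  · refine ⟨i - 1, ?_⟩
    intro w hw
    rcases key w hw with h | h | h
    · right; rw [h]; congr 1; ring
    · exfalso
      subst h
      rcases adj_of_mem hs hw hm with h | h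
      · have := hinj h
        exact h2 (by linear_combination this)
      · rcases hno _ _ h with h | h
        · exact h3 (by linear_combination -h)
        · exact h1 (by linear_combination h)
    · exact Or.inl h
  · refine ⟨i, ?_⟩
    intro w hw
    rcases key w hw with h | h | h
    · exact Or.inl h
    · exact Or.inr h
    · exact absurd (h ▸ hw) hm

lemma link_adj {v : V} (hF : X.Flag) {a b : {w : V // X.skel.Adj v w}} :
    (X.link v).skel.Adj a b ↔ X.skel.Adj a.1 b.1 := by
  classical
  constructor
  · rintro ⟨h1, s, ⟨_, t, ht, _, h2⟩, ha, hb⟩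
    rcases adj_of_mem ht (h2 a ha) (h2 b hb) with h | h
    · exact absurd (Subtype.ext h) h1
    · exact h
  · intro h
    have ha := a.2
    have hb := b.2
    have hf : ({v, a.1, b.1} : Finset V) ∈ X.faces := by
      refine hF _ (Finset.insert_nonempty _ _) ?_
      intro x hx y hy hxy
      simp only [Finset.coe_insert, Finset.coe_singleton, Set.mem_insert_iff,
        Set.mem_singleton_iff] at hx hy
      rcases hx with rfl | rfl | rfl <;> rcases hy with rfl | rfl | rfl <;>
        first
          | exact absurd rfl hxy
          | assumption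
          | exact ha.symm
          | exact hb.symm
          | exact h.symm
    refine ⟨fun h1 => h.ne (by rw [h1]), {a, b}, ⟨Finset.insert_nonempty _ _, _, hf, by simp,
      ?_⟩, by simp, by simp⟩
    intro w hw
    simp only [Finset.mem_insert, Finset.mem_singleton] at hw
    rcases hw with rfl | rfl <;> simp

theorem loc6 (hX : X.Systolic) : Loc6 X.skel := by
  constructor
  · intro v a b c d va vb vc vd ab bc cd da hac nac hbd nbd
    have := hX.links v 4 (![⟨a, va⟩, ⟨b, vb⟩, ⟨c, vc⟩, ⟨d, vd⟩] : Fin 4 → _) (by
      refine full_of_induced _ 4 le_rfl _ ?_ ?_ ?_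
      · intro i j h
        fin_cases i <;> fin_cases j <;> simp_all [ab.ne, bc.ne, cd.ne, da.ne, ab.ne', bc.ne',
          cd.ne', da.ne']
      · intro i
        rw [link_adj hX.flag]
        fin_cases i
        · exact ab
        · exact bc
        · exact cd
        · exact da
      · intro i j h
        rw [link_adj hX.flag] at h
        have nca : ¬ X.skel.Adj c a := fun h => nac h.symm
        have ndb : ¬ X.skel.Adj d b := fun h => nbd h.symm
        fin_cases i <;> fin_cases j <;> first
          | exact absurd h (SimpleGraph.irrefl _)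
          | exact absurd h nac
          | exact absurd h nca
          | exact absurd h nbd
          | exact absurd h ndb
          | (left; rfl)
          | (right; rfl))
    omega
  · intro v a b c d e va vb vc vd ve ab bc cd de ea hac nac hbd nbd hce nce hda nda heb neb
    have nca : ¬ X.skel.Adj c a := fun h => nac h.symm
    have ndb : ¬ X.skel.Adj d b := fun h => nbd h.symm
    have nec : ¬ X.skel.Adj e c := fun h => nce h.symm
    have nad : ¬ X.skel.Adj a d := fun h => nda h.symm
    have nbe : ¬ X.skel.Adj b e := fun h => neb h.symm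
    have := hX.links v 5 (![⟨a, va⟩, ⟨b, vb⟩, ⟨c, vc⟩, ⟨d, vd⟩, ⟨e, ve⟩] : Fin 5 → _) (by
      refine full_of_induced _ 5 (by norm_num) _ ?_ ?_ ?_
      · intro i j h
        fin_cases i <;> fin_cases j <;> simp_all [ab.ne, bc.ne, cd.ne, de.ne, ea.ne, ab.ne', bc.ne',
          cd.ne', de.ne', ea.ne', hac.symm, hbd.symm, hce.symm, hda.symm, heb.symm]
      · intro i
        rw [link_adj hX.flag]
        fin_cases i
        · exact ab
        · exact bc
        · exact cd
        · exact de
        · exact ea
      · intro i j h
        rw [link_adj hX.flag] at h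
        fin_cases i <;> fin_cases j <;> first
          | exact absurd h (SimpleGraph.irrefl _)
          | exact absurd h nac
          | exact absurd h nca
          | exact absurd h nbd
          | exact absurd h ndb
          | exact absurd h nce
          | exact absurd h nec
          | exact absurd h nda
          | exact absurd h nad
          | exact absurd h neb
          | exact absurd h nbe
          | (left; rfl)
          | (right; rfl))
    omega

theorem simplyConn (hX : X.Systolic) : SimplyConn X.skel := by
  intro v l h1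
  have h3 := hX.simply v l (by
    exact List.IsChain.imp (fun a b h => ex_iff.2 h) h1)
  have key : ∀ a b : List V, Relation.EqvGen X.Move a b →
      Relation.EqvGen (Pool.Agent.Helper34.Sys.Move X.skel) a b := by
    intro a b hab
    induction hab with
    | rel a b h =>
      refine Relation.EqvGen.rel _ _ ?_
      cases h with
      | mk p q a b c h =>
        obtain ⟨s, hs, ha, hb, hc⟩ := h
        exact .mk p q a b c (adj_of_mem hs ha hb) (adj_of_mem hs hb hc) (adj_of_mem hs ha hc)
    | refl a => exact Relation.EqvGen.refl a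
    | symm a b _ ih => exact Relation.EqvGen.symm _ _ ih
    | trans a b c _ _ ih1 ih2 => exact Relation.EqvGen.trans _ _ _ ih1 ih2
  exact key _ _ h3

theorem cliques (hX : X.Systolic) (hN : X.UniformlyLocallyFinite) :
    ∃ N : ℕ, ∀ v : V, ∀ S : Finset (Finset V),
      (∀ s ∈ S, v ∈ s ∧ X.skel.IsClique (s : Set V)) → S.card ≤ N := by
  obtain ⟨N, hN⟩ := hN
  exact ⟨N, fun v S hS => hN v S fun s hs => ⟨(hS s hs).1, hX.flag s ⟨v, (hS s hs).1⟩ (hS s hs).2⟩⟩

end Complex

end Pool.Agent.Helper32.Sys
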